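import Pool.Agent.NGM.StmtsK

/-!
# Row REP of the squad NGM (helper81): orthogonal representation and cocycle
-/

set_option autoImplicit false

namespace Pool.Agent.NGM.H81

open Filter Topology

open scoped Pointwise Classical InnerProductSpace

/-- abstract form: a right action by isometries and a cocycle of linear forms -/
theorem absrep {Q : Type*} [Group Q] {V : Type*} [NormedAddCommGroup V] [InnerProductSpace ℝ V]
    [FiniteDimensional ℝ V] (T : Q → V →ₗ[ℝ] V) (β : Q → V →ₗ[ℝ] ℝ) (h1 : T 1 = LinearMap.id)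
    (hmul : ∀ g h, T (g * h) = (T h).comp (T g))
    (hinv : ∀ g f, ⟪T g f, T g f⟫_ℝ = ⟪f, f⟫_ℝ)
    (hβ : ∀ g h f, β (g * h) f = β g f + β h (T g f))
    (hunb : ∃ f : V, ∀ C : ℝ, ∃ g, C < |β g f|) :
    ∃ (n : ℕ) (π : Q →* (EuclideanSpace ℝ (Fin n) ≃ₗᵢ[ℝ] EuclideanSpace ℝ (Fin n)))
      (b : Q → EuclideanSpace ℝ (Fin n)),
      (∀ g h, b (g * h) = b g + π g (b h)) ∧ ∀ C : ℝ, ∃ g, C < ‖b g‖ := by
  have hl : ∀ g : Q, (T g⁻¹).comp (T g) = LinearMap.id := fun g => by
    rw [← hmul, mul_inv_cancel, h1]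
  have hr : ∀ g : Q, (T g).comp (T g⁻¹) = LinearMap.id := fun g => by
    rw [← hmul, inv_mul_cancel, h1]
  have hn : ∀ g f, ‖T g f‖ = ‖f‖ := by
    intro g f
    have h := hinv g f
    rw [real_inner_self_eq_norm_sq, real_inner_self_eq_norm_sq] at h
    exact (sq_eq_sq₀ (norm_nonneg _) (norm_nonneg _)).1 h
  let Ti : Q → (V ≃ₗᵢ[ℝ] V) := fun g =>
    { toLinearEquiv := LinearEquiv.ofLinearMap (T g⁻¹) (T g) (hl g) (hr g)
      norm_map' := fun f => hn g⁻¹ f }
  have hTi : ∀ g f, Ti g f = T g⁻¹ f := fun g f => rfl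
  let e := stdOrthonormalBasis ℝ V
  let v : Q → V := fun g =>
    (InnerProductSpace.toDual ℝ V).symm (LinearMap.toContinuousLinearMap (β g))
  have hv : ∀ g f, ⟪v g, f⟫_ℝ = β g f := by
    intro g f
    simp [v, InnerProductSpace.toDual_symm_apply]
  have hadj : ∀ g w f, ⟪T g⁻¹ w, f⟫_ℝ = ⟪w, T g f⟫_ℝ := by
    intro g w f
    have h : T g⁻¹ (T g f) = f := by
      have := congrArg (fun L : V →ₗ[ℝ] V => L f) (hl g)
      simpa using this
    have h2 := (Ti g).inner_map_map w (T g f)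
    rw [hTi, hTi, h] at h2
    exact h2
  have hvv : ∀ g h, v (g * h) = v g + T g⁻¹ (v h) := by
    intro g h
    refine ext_inner_right ℝ fun f => ?_
    rw [inner_add_left, hadj, hv, hv, hv, hβ]
  refine ⟨_, { toFun := fun g => (e.repr.symm.trans (Ti g)).trans e.repr
               map_one' := ?_
               map_mul' := ?_ }, fun g => e.repr (v g), ?_, ?_⟩
  · ext x i
    simp [hTi, h1]
  · intro g h
    have hm : T (h⁻¹ * g⁻¹) = (T g⁻¹).comp (T h⁻¹) := hmul _ _
    ext x i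
    simp [hTi, hm]
  · intro g h
    simp only [MonoidHom.coe_mk, OneHom.coe_mk, LinearIsometryEquiv.trans_apply,
      LinearIsometryEquiv.symm_apply_apply, hTi, hvv, map_add]
  · intro C
    obtain ⟨f, hf⟩ := hunb
    obtain ⟨g, hg⟩ := hf (|C| * ‖f‖)
    refine ⟨g, ?_⟩
    rw [LinearIsometryEquiv.norm_map]
    have h2 : |β g f| ≤ ‖v g‖ * ‖f‖ := by
      rw [← hv]
      exact abs_real_inner_le_norm _ _
    have h3 : |C| * ‖f‖ < ‖v g‖ * ‖f‖ := hg.trans_le h2
    exact (le_abs_self C).trans_lt (lt_of_mul_lt_mul_right h3 (norm_nonneg f))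

/-- the right action as linear maps -/
noncomputable def Tl {Q : Type*} [Group Q] {K : Finset Q} (hK : GenSet K) (g : Q) :
    VV K →ₗ[ℝ] VV K where
  toFun f := ⟨tr g f.1, tr_mem hK g f.2⟩
  map_add' f h := by
    apply Subtype.ext
    funext x
    simp only [tr, Submodule.coe_add, Pi.add_apply]
    ring
  map_smul' r f := by
    apply Subtype.ext
    funext x
    simp only [tr, Submodule.coe_smul, Pi.smul_apply, smul_eq_mul, RingHom.id_apply]
    ring

/-- evaluation -/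
noncomputable def ev {Q : Type*} [Group Q] (K : Finset Q) (g : Q) : VV K →ₗ[ℝ] ℝ where
  toFun f := f.1 g
  map_add' _ _ := rfl
  map_smul' _ _ := rfl

theorem unb {Q : Type*} [Group Q] {K : Finset Q} (hwk : ∀ (f : Q → ℝ) (n : ℕ),
    (∀ x, 0 ≤ wk K n x) ∧ (av K)^[n] f 1 = ∑ x ∈ K ^ n, wk K n x * f (1 * x) ∧
      ∑ x ∈ K ^ n, wk K n x = 1) (U : Filter ℕ) [U.NeBot] (hU : U ≤ atTop) (f : Q → ℝ) (l : ℝ)
    (hl : 0 < l) (hlim : Tendsto (fun n : ℕ => (av K)^[2 * n] (fun x => f x * f x) 1 / n) U (𝓝 l))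
    (C : ℝ) : ∃ g, C < |f g| := by
  by_contra hno
  push Not at hno
  have hb : ∀ n : ℕ, (av K)^[2 * n] (fun x => f x * f x) 1 ≤ C ^ 2 := by
    intro n
    obtain ⟨h0, h1, h2⟩ := hwk (fun x => f x * f x) (2 * n)
    rw [h1]
    calc ∑ x ∈ K ^ (2 * n), wk K (2 * n) x * (f (1 * x) * f (1 * x))
        ≤ ∑ x ∈ K ^ (2 * n), wk K (2 * n) x * C ^ 2 := by
          refine Finset.sum_le_sum fun x _ => mul_le_mul_of_nonneg_left ?_ (h0 x)
          rw [← sq, ← sq_abs (f (1 * x))]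
          exact pow_le_pow_left₀ (abs_nonneg _) (hno _) 2
      _ = C ^ 2 := by rw [← Finset.sum_mul, h2, one_mul]
  have hlim0 : Tendsto (fun n : ℕ => C ^ 2 / (n : ℝ)) U (𝓝 0) :=
    (tendsto_const_div_atTop_nhds_zero_nat (C ^ 2)).mono_left hU
  have hle : l ≤ 0 := le_of_tendsto_of_tendsto' hlim hlim0 fun n =>
    div_le_div_of_nonneg_right (hb n) (Nat.cast_nonneg n)
  exact absurd hle (not_le.2 hl)

universe u

theorem rep (hwk : WkStmt.{u}) (hbil : BilStmt.{u}) : RepStmt.{u} := by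
  intro Q _ K hK U B c hF hfin hne
  obtain ⟨hsym, hadd, hsmul, hnn, hdef⟩ := hbil Q K hK U B c hF
  let core : InnerProductSpace.Core ℝ (VV K) :=
    { inner := B
      conj_inner_symm := fun x y => by
        rw [conj_trivial]
        exact hsym y x
      re_inner_nonneg := fun x => hnn x
      add_left := fun x y z => hadd x y z
      smul_left := fun x y r => hsmul r x y
      definite := fun x hx => hdef x hx }
  let : NormedAddCommGroup (VV K) := core.toNormedAddCommGroup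
  let : InnerProductSpace ℝ (VV K) := InnerProductSpace.ofCore core.toCore
  have hin : ∀ x y : VV K, ⟪x, y⟫_ℝ = B x y := fun x y => rfl
  have : FiniteDimensional ℝ (VV K) := hfin
  obtain ⟨f, hf⟩ := hne
  have hfp : 0 < B f f := lt_of_le_of_ne (hnn f) fun h => hf (hdef f h.symm)
  refine absrep (Tl hK) (ev K) ?_ ?_ ?_ ?_ ⟨f, ?_⟩
  · ext g x
    simp [Tl, tr, g.2.1]
  · intro g h
    ext u x
    simp [Tl, tr, mul_assoc]
  · intro g u
    rw [hin, hin]
    exact hF.inv g u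
  · intro g h u
    simp [Tl, tr, ev]
  · haveI := hF.ne
    exact unb (fun u n => by
      obtain ⟨h0, -, -, h1, h2, -⟩ := hwk Q K hK n
      exact ⟨h0, h1 u 1, h2⟩) U hF.le f.1 (B f f) hfp (hF.lim f f)

end Pool.Agent.NGM.H81
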