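import Pool.Agent.NGM.StmtsK

/-!
# Row CHN of the squad NGM (helper81): entropy of an average
-/

set_option autoImplicit false

namespace Pool.Agent.NGM.H81

theorem pt (q m : ℝ) (hq : 0 ≤ q) (hm : 0 ≤ m) (h0 : m = 0 → q = 0) :
    (q - m) ^ 2 / (q + m) ≤ 2 * (q * Real.log q - q * Real.log m - q + m) := by
  rcases hm.eq_or_lt with hm0 | hmp
  · have hq0 := h0 hm0.symm
    subst hq0
    rw [← hm0]
    simp
  rcases hq.eq_or_lt with hq0 | hqp
  · rw [← hq0]
    have e : ((0 : ℝ) - m) ^ 2 / (0 + m) = m := by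
      field_simp
      ring
    rw [e]
    simp
    linarith
  obtain ⟨a, ha, rfl⟩ : ∃ a : ℝ, 0 < a ∧ a ^ 2 = q :=
    ⟨√q, Real.sqrt_pos.2 hqp, Real.sq_sqrt hq⟩
  obtain ⟨b, hb, rfl⟩ : ∃ b : ℝ, 0 < b ∧ b ^ 2 = m :=
    ⟨√m, Real.sqrt_pos.2 hmp, Real.sq_sqrt hm⟩
  have h1 : 1 - (a / b)⁻¹ ≤ Real.log (a / b) := Real.one_sub_inv_le_log_of_pos (div_pos ha hb)
  rw [inv_div, Real.log_div ha.ne' hb.ne'] at h1
  have h2 : a ^ 2 * (1 - b / a) = a ^ 2 - a * b := by
    field_simp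
  have h3 : a ^ 2 - a * b ≤ a ^ 2 * (Real.log a - Real.log b) := by
    rw [← h2]
    exact mul_le_mul_of_nonneg_left h1 (by positivity)
  have e1 : Real.log (a ^ 2) = 2 * Real.log a := by
    rw [Real.log_pow]; norm_num
  have e2 : Real.log (b ^ 2) = 2 * Real.log b := by
    rw [Real.log_pow]; norm_num
  rw [e1, e2, div_le_iff₀ (by positivity)]
  have h4 : 2 * (a - b) ^ 2 ≤
      2 * (a ^ 2 * (2 * Real.log a) - a ^ 2 * (2 * Real.log b) - a ^ 2 + b ^ 2) := by
    nlinarith [h3]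
  have h5 : (a ^ 2 - b ^ 2) ^ 2 ≤ 2 * (a - b) ^ 2 * (a ^ 2 + b ^ 2) := by
    have e3 : 2 * (a - b) ^ 2 * (a ^ 2 + b ^ 2) - (a ^ 2 - b ^ 2) ^ 2 =
        ((a - b) ^ 2) ^ 2 := by ring
    nlinarith [sq_nonneg ((a - b) ^ 2)]
  exact h5.trans (mul_le_mul_of_nonneg_right h4 (by positivity))

theorem chn : ChnStmt := by
  intro Q J _ _ T q m hq hsum hm
  have hJ : (0 : ℝ) < Fintype.card J := by exact_mod_cast Fintype.card_pos
  have hm0 : ∀ x, 0 ≤ m x := fun x => by
    rw [hm x]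
    exact mul_nonneg (inv_nonneg.2 hJ.le) (Finset.sum_nonneg fun j _ => hq j x)
  have hz : ∀ j x, m x = 0 → q j x = 0 := by
    intro j x h
    rw [hm x] at h
    have h1 : ∑ j, q j x = 0 := by
      rcases mul_eq_zero.1 h with h | h
      · exact absurd h (inv_ne_zero hJ.ne')
      · exact h
    exact (Finset.sum_eq_zero_iff_of_nonneg fun j _ => hq j x).1 h1 j (Finset.mem_univ j)
  have hmx : ∀ x, ∑ j, q j x = (Fintype.card J : ℝ) * m x := fun x => by
    rw [hm x, ← mul_assoc, mul_inv_cancel₀ hJ.ne', one_mul]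
  have hms : ∑ x ∈ T, m x = 1 := by
    have h1 : (Fintype.card J : ℝ) * ∑ x ∈ T, m x = Fintype.card J := by
      rw [Finset.mul_sum, Finset.sum_congr rfl fun x _ => (hmx x).symm, Finset.sum_comm,
        Finset.sum_congr rfl fun j _ => hsum j]
      simp
    have h2 : (Fintype.card J : ℝ) * ∑ x ∈ T, m x = (Fintype.card J : ℝ) * 1 := by
      rw [h1, mul_one]
    exact mul_left_cancel₀ hJ.ne' h2
  have hA : ∑ j, ∑ x ∈ T, (q j x - m x) ^ 2 / (q j x + m x) ≤
      ∑ j, ∑ x ∈ T, 2 * (q j x * Real.log (q j x) - q j x * Real.log (m x) - q j x + m x) :=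
    Finset.sum_le_sum fun j _ => Finset.sum_le_sum fun x _ =>
      pt _ _ (hq j x) (hm0 x) (hz j x)
  have hB : ∑ j, ∑ x ∈ T,
      2 * (q j x * Real.log (q j x) - q j x * Real.log (m x) - q j x + m x) =
      2 * ((Fintype.card J : ℝ) * ∑ x ∈ T, Real.negMulLog (m x) -
        ∑ j, ∑ x ∈ T, Real.negMulLog (q j x)) := by
    have e1 : ∑ j, ∑ x ∈ T, q j x * Real.log (m x) =
        -((Fintype.card J : ℝ) * ∑ x ∈ T, Real.negMulLog (m x)) := by
      rw [Finset.sum_comm, Finset.mul_sum, ← Finset.sum_neg_distrib]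
      refine Finset.sum_congr rfl fun x _ => ?_
      rw [← Finset.sum_mul, hmx x, Real.negMulLog]
      ring
    have e2 : ∑ j, ∑ x ∈ T, q j x * Real.log (q j x) =
        -∑ j, ∑ x ∈ T, Real.negMulLog (q j x) := by
      rw [← Finset.sum_neg_distrib]
      refine Finset.sum_congr rfl fun j _ => ?_
      rw [← Finset.sum_neg_distrib]
      refine Finset.sum_congr rfl fun x _ => ?_
      rw [Real.negMulLog]
      ring
    have e3 : ∑ j : J, ∑ x ∈ T, q j x = Fintype.card J := by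
      rw [Finset.sum_congr rfl fun j _ => hsum j]
      simp
    have e4 : ∑ _j : J, ∑ x ∈ T, m x = Fintype.card J := by
      rw [Finset.sum_congr rfl fun j _ => hms]
      simp
    simp only [← Finset.mul_sum, Finset.sum_add_distrib, Finset.sum_sub_distrib]
    rw [e1, e2, e3, e4]
    ring
  have hC := hA.trans_eq hB
  have hD := mul_le_mul_of_nonneg_left hC (inv_nonneg.2 hJ.le)
  refine hD.trans_eq ?_
  field_simp

end Pool.Agent.NGM.H81
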